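import Mathlib
import Pool.Agent.W437.HC.Act

/-!
# Alternation of tensors, contractions (GHC2/M, helper222)
-/

set_option linter.unusedSectionVars false
set_option autoImplicit false

namespace Pool.Agent.N222.GHC

open Finset Pool.Agent.W437.HC

noncomputable section

variable {H : Type} [AddCommGroup H] [Module ℚ H] {B : Type} [Fintype B] [DecidableEq B]
  {n i : ℕ} (ι : H →ₗ[ℚ] (B → ℚ))

/-- The alternation of a tensor. -/
def AL (g : (Fin i → B) → ℚ) : H [⋀^Fin i]→ₗ[ℚ] ℚ :=
  MultilinearMap.alternatization ((evalM g).compLinearMap fun _ => ι)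

theorem AL_apply (g : (Fin i → B) → ℚ) (x : Fin i → H) : AL ι g x =
    ∑ σ : Equiv.Perm (Fin i), ((Equiv.Perm.sign σ : ℤ) : ℚ) *
      evalF g (fun k => ι (x (σ k))) := by
  unfold AL
  rw [MultilinearMap.alternatization_apply]
  refine Finset.sum_congr rfl fun σ _ => ?_
  have h1 : ((evalM g).compLinearMap fun _ => ι).domDomCongr σ x =
      evalF g (fun k => ι (x (σ k))) := rfl
  rw [h1]
  rcases Int.units_eq_one_or (Equiv.Perm.sign σ) with h | h
  · rw [h]; simp
  · rw [h]; simp

theorem evalF_add' {κ : Type} [Fintype κ] [DecidableEq κ] (g g' : (κ → B) → ℚ) (x : κ → B → ℚ) :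
    evalF (g + g') x = evalF g x + evalF g' x := by
  unfold evalF
  rw [← Finset.sum_add_distrib]
  refine Finset.sum_congr rfl fun I _ => ?_
  rw [Pi.add_apply]
  ring

theorem evalF_smul' {κ : Type} [Fintype κ] [DecidableEq κ] (c : ℚ) (g : (κ → B) → ℚ)
    (x : κ → B → ℚ) : evalF (c • g) x = c * evalF g x := by
  unfold evalF
  rw [Finset.mul_sum]
  refine Finset.sum_congr rfl fun I _ => ?_
  rw [Pi.smul_apply, smul_eq_mul]
  ring

/-- The alternation as a linear map. -/
def ALL : ((Fin i → B) → ℚ) →ₗ[ℚ] (H [⋀^Fin i]→ₗ[ℚ] ℚ) where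
  toFun := AL ι
  map_add' g g' := by
    ext x
    rw [AlternatingMap.add_apply, AL_apply, AL_apply, AL_apply, ← Finset.sum_add_distrib]
    refine Finset.sum_congr rfl fun σ _ => ?_
    rw [evalF_add']
    ring
  map_smul' c g := by
    ext x
    rw [AlternatingMap.smul_apply, AL_apply, AL_apply, smul_eq_mul, Finset.mul_sum]
    refine Finset.sum_congr rfl fun σ _ => ?_
    rw [evalF_smul', RingHom.id_apply]
    ring

theorem ALL_apply (g : (Fin i → B) → ℚ) : ALL ι g = AL ι g := rfl

/-- The values of a form at basis vectors in the first variables. -/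
theorem evalF_elim (τ : (Fin n ⊕ Fin i → B) → ℚ) (J : Fin n → B) (y : Fin i → B → ℚ) :
    evalF τ (Sum.elim (fun k => Pi.single (J k) 1) y) =
      ∑ I : Fin i → B, τ (Sum.elim J I) * ∏ l, y l (I l) := by
  unfold evalF
  rw [← (Equiv.sumArrowEquivProdArrow (Fin n) (Fin i) B).symm.sum_comp, Fintype.sum_prod_type,
    Finset.sum_eq_single J]
  · refine Finset.sum_congr rfl fun I _ => ?_
    rw [Fintype.prod_sum_type]
    have e1 : (Equiv.sumArrowEquivProdArrow (Fin n) (Fin i) B).symm (J, I) = Sum.elim J I := rfl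
    rw [e1]
    simp
  · intro J' _ hJ'
    refine Finset.sum_eq_zero fun I _ => ?_
    rw [Fintype.prod_sum_type]
    obtain ⟨k, hk⟩ : ∃ k, J' k ≠ J k := by
      by_contra h
      push Not at h
      exact hJ' (funext h)
    have e1 : (Equiv.sumArrowEquivProdArrow (Fin n) (Fin i) B).symm (J', I) = Sum.elim J' I := rfl
    rw [e1, Finset.prod_eq_zero (Finset.mem_univ k), zero_mul, mul_zero]
    simp [hk]
  · intro h
    exact absurd (Finset.mem_univ _) h

theorem evalF_contr (τ : (Fin n ⊕ Fin i → B) → ℚ) (η : (Fin n → B) → ℚ) (y : Fin i → B → ℚ) :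
    evalF (fun I => ∑ J, η J * τ (Sum.elim J I)) y =
      ∑ J, η J * evalF τ (Sum.elim (fun k => Pi.single (J k) 1) y) := by
  simp only [evalF_elim]
  unfold evalF
  simp only [Finset.sum_mul, Finset.mul_sum]
  rw [Finset.sum_comm]
  refine Finset.sum_congr rfl fun J _ => Finset.sum_congr rfl fun I _ => ?_
  ring

theorem AL_contr (τ : (Fin n ⊕ Fin i → B) → ℚ) (η : (Fin n → B) → ℚ) (x : Fin i → H) :
    AL ι (fun I => ∑ J, η J * τ (Sum.elim J I)) x =
      ∑ J, η J * ∑ σ : Equiv.Perm (Fin i), ((Equiv.Perm.sign σ : ℤ) : ℚ) *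
        evalF τ (Sum.elim (fun k => Pi.single (J k) 1) fun l => ι (x (σ l))) := by
  rw [AL_apply]
  simp only [evalF_contr, Finset.mul_sum]
  rw [Finset.sum_comm]
  refine Finset.sum_congr rfl fun J _ => Finset.sum_congr rfl fun σ _ => ?_
  ring

/-- An alternating form is recovered from its coordinates. -/
theorem AL_self (g : (Fin i → B) → ℚ) (f : H [⋀^Fin i]→ₗ[ℚ] ℚ)
    (h : ∀ x : Fin i → H, f x = evalF g (fun k => ι (x k))) :
    AL ι g = ((Nat.factorial i : ℕ) : ℚ) • f := by
  ext x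
  rw [AL_apply, AlternatingMap.smul_apply, smul_eq_mul]
  have h1 : ∀ σ : Equiv.Perm (Fin i), ((Equiv.Perm.sign σ : ℤ) : ℚ) *
      evalF g (fun k => ι (x (σ k))) = f x := by
    intro σ
    rw [← h (fun k => x (σ k))]
    have h2 : f (fun l => x (σ l)) = Equiv.Perm.sign σ • f x := f.map_perm x σ
    rw [h2]
    rcases Int.units_eq_one_or (Equiv.Perm.sign σ) with h | h
    · rw [h]; simp
    · rw [h]; simp
  rw [Finset.sum_congr rfl fun σ _ => h1 σ, Finset.sum_const, Finset.card_univ,
    Fintype.card_perm, Fintype.card_fin, nsmul_eq_mul]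

end

end Pool.Agent.N222.GHC
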