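import Mathlib
import Pool.Agent.N178.HW.StmC
import Pool.Agent.N222.GHC.Alt

/-!
# GHC2/M: the assembly (helper222)
-/

set_option linter.unusedSectionVars false

namespace Pool.Agent.N222.GHC

open Finset Matrix Module Pool.Agent.W437.HC Pool.Agent.W437.HD Pool.Agent.Y90 Pool.Agent.R915
open Pool.Agent.H204R3.CM (IsHodge)
open Pool.Agent.W546.GHC (IsHodgeSubstructure LevelLE)
open Pool.Agent.N178.HW
open Pool.Agent.TH131.GHC (Frame HL)
open Pool.Agent.TH504.CB (isHodge_comp)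
open Pool.Agent.W548.Odd (hermZ)
open Pool.Agent.W437.HP (cK cK_mul cK_one)

noncomputable section

/-! ### powers -/

section pow

variable {G : ℕ} {Z : Matrix (Fin G) (Fin G) ℂ} (h : PM Z)

/-- splitting of a power -/
def rS (G n : ℕ) : (BQ (fun _ : Fin (n + 1) => G) → ℚ) →ₗ[ℚ]
    (BQ (fun _ : Fin n => G) → ℚ) × (Fin G ⊕ Fin G → ℚ) where
  toFun w := (fun z => w ⟨z.1.succ, z.2⟩, fun i => w ⟨0, i⟩)
  map_add' _ _ := rfl
  map_smul' _ _ := rfl

theorem rS_inj (G n : ℕ) : Function.Injective (rS G n) := by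
  intro v w hvw
  have h1 := congrArg Prod.fst hvw
  have h2 := congrArg Prod.snd hvw
  funext z
  obtain ⟨q, i⟩ := z
  cases q using Fin.cases with
  | zero => exact congrFun h2 i
  | succ k => exact congrFun h1 ⟨k, i⟩

theorem rS_hom (n : ℕ) : IsHom (AVQ (fun _ : Fin (n + 1) => h))
    (prodAV (AVQ (fun _ : Fin n => h)) (AVZ h)) (rS G n) := by
  let Ψ : (∀ _ : Fin (n + 1), Fin G → ℂ) →ₗ[ℂ] (∀ _ : Fin n, Fin G → ℂ) × (Fin G → ℂ) :=
    { toFun := fun t => (fun k => t k.succ, t 0)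
      map_add' := fun _ _ => rfl
      map_smul' := fun _ _ => rfl }
  exact ⟨Ψ, fun v => rfl⟩

theorem good_pow (hsub : S_GSUB) (hprod : S_GPROD) {d : ℚ} (hg : Good d (AVZ h)) (n : ℕ) :
    Good d (AVQ (fun _ : Fin n => h)) := by
  induction n with
  | zero =>
    refine hsub d (AVQ (fun _ : Fin 0 => h)) (AVZ h) 0 ⟨0, fun v => ?_⟩ ?_ hg
    · rw [LinearMap.zero_apply, LinearMap.zero_apply, map_zero]
    · intro v w _
      funext z
      exact z.1.elim0
  | succ n ih =>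
    exact hsub d (AVQ (fun _ : Fin (n + 1) => h)) (prodAV (AVQ (fun _ : Fin n => h)) (AVZ h))
      (rS G n) (rS_hom h n) (rS_inj G n) (hprod d _ _ ih hg)

end pow

/-! ### products -/

section prod

variable {G : ℕ} {Z : Matrix (Fin G) (Fin G) ℂ} (h : PM Z) {X : AV}
  (ι : X.H →ₗ[ℚ] (Fin G ⊕ Fin G → ℚ))

/-- the map to the power -/
def qM (n : ℕ) : ((BQ (fun _ : Fin n => G) → ℚ) × X.H) →ₗ[ℚ]
    (BQ (fun _ : Option (Fin n) => G) → ℚ) where
  toFun p := fun z => match z with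
    | ⟨some k, i⟩ => p.1 ⟨k, i⟩
    | ⟨none, i⟩ => ι p.2 i
  map_add' p q := by
    funext z
    obtain ⟨q', i⟩ := z
    cases q' with
    | none =>
      change ι (p.2 + q.2) i = ι p.2 i + ι q.2 i
      rw [map_add]; rfl
    | some k => rfl
  map_smul' c p := by
    funext z
    obtain ⟨q', i⟩ := z
    cases q' with
    | none =>
      change ι (c • p.2) i = c • ι p.2 i
      rw [map_smul]; rfl
    | some k => rfl

theorem qM_some (n : ℕ) (p : (BQ (fun _ : Fin n => G) → ℚ) × X.H) (k : Fin n) (i : Fin G ⊕ Fin G) :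
    qM ι n p ⟨some k, i⟩ = p.1 ⟨k, i⟩ := rfl

theorem qM_none (n : ℕ) (p : (BQ (fun _ : Fin n => G) → ℚ) × X.H) (i : Fin G ⊕ Fin G) :
    qM ι n p ⟨none, i⟩ = ι p.2 i := rfl

theorem qM_hom (n : ℕ) {Ψ : X.T →ₗ[ℂ] (Fin G → ℂ)} (hΨ : ∀ v, Ψ (X.per v) = perOne Z (ι v)) :
    IsHom (prodAV (AVQ (fun _ : Fin n => h)) X) (AVQ (fun _ : Option (Fin n) => h)) (qM ι n) := by
  let Φ : ((∀ _ : Fin n, Fin G → ℂ) × X.T) →ₗ[ℂ] (∀ _ : Option (Fin n), Fin G → ℂ) :=
    { toFun := fun t => fun q => match q with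
        | some k => t.1 k
        | none => Ψ t.2
      map_add' := fun s t => by
        funext q
        cases q with
        | none =>
          change Ψ (s.2 + t.2) = Ψ s.2 + Ψ t.2
          exact map_add _ _ _
        | some k => rfl
      map_smul' := fun c t => by
        funext q
        cases q with
        | none =>
          change Ψ (c • t.2) = c • Ψ t.2
          exact map_smul _ _ _
        | some k => rfl }
  refine ⟨Φ, fun v => ?_⟩
  funext q
  cases q with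
  | none => exact hΨ v.2
  | some k => rfl

theorem qM_inl (n : ℕ) (k : Fin n) (e : Fin G ⊕ Fin G → ℚ) :
    qM ι n (inF (fun _ : Fin n => G) k e, 0) = inF (fun _ : Option (Fin n) => G) (some k) e := by
  funext z
  obtain ⟨q, i⟩ := z
  cases q with
  | none =>
    rw [qM_none]
    have h1 := congrFun (inF_ne (a := fun _ : Option (Fin n) => G) (q := some k) (q' := none)
      (by simp) e) i
    have h2 : inF (fun _ : Option (Fin n) => G) (some k) e ⟨none, i⟩ = 0 := h1
    rw [h2]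
    change ι 0 i = 0
    rw [map_zero]; rfl
  | some k' =>
    rw [qM_some]
    by_cases hk : k' = k
    · subst hk
      have h1 := congrFun (inF_same (a := fun _ : Option (Fin n) => G) (some k') e) i
      have h2 := congrFun (inF_same (a := fun _ : Fin n => G) k' e) i
      exact h2.trans h1.symm
    · have h1 := congrFun (inF_ne (a := fun _ : Option (Fin n) => G) (q := some k) (q' := some k')
        (by simpa using hk) e) i
      have h2 := congrFun (inF_ne (a := fun _ : Fin n => G) (q := k) (q' := k') hk e) i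
      exact h2.trans h1.symm

theorem qM_inr (n : ℕ) (x : X.H) :
    qM ι n ((0 : BQ (fun _ : Fin n => G) → ℚ), x) =
      inF (fun _ : Option (Fin n) => G) none (ι x) := by
  funext z
  obtain ⟨q, i⟩ := z
  cases q with
  | none =>
    rw [qM_none]
    have h1 := congrFun (inF_same (a := fun _ : Option (Fin n) => G) none (ι x)) i
    exact h1.symm
  | some k' =>
    rw [qM_some]
    have h1 := congrFun (inF_ne (a := fun _ : Option (Fin n) => G) (q := none) (q' := some k')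
        (by simp) (ι x)) i
    exact h1.symm

/-- The correspondence given by a Hodge class on the power. -/
theorem mem_Corr {n i : ℕ} {Ψ : X.T →ₗ[ℂ] (Fin G → ℂ)} (hΨ : ∀ v, Ψ (X.per v) = perOne Z (ι v))
    (hall : algSys.AllHodge (prodAV (AVQ (fun _ : Fin n => h)) X))
    {T : (AVQ (fun _ : Option (Fin n) => h)).H [⋀^Fin n ⊕ Fin i]→ₗ[ℚ] ℚ}
    (hT : IsHodge (AVQ (fun _ : Option (Fin n) => h)).per T) (e : Fin n → Fin G ⊕ Fin G → ℚ)
    {f : X.H [⋀^Fin i]→ₗ[ℚ] ℚ} (hf : ∀ x : Fin i → X.H, f x =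
      T (Sum.elim (fun k => inF (fun _ : Option (Fin n) => G) (some k) (e k))
        fun l => inF (fun _ : Option (Fin n) => G) none (ι (x l)))) : f ∈ Corr X n i := by
  refine Submodule.subset_span ⟨AVQ (fun _ : Fin n => h), prodAV (AVQ (fun _ : Fin n => h)) X,
    LinearMap.inl ℚ _ _, LinearMap.inr ℚ _ _, T.compLinearMap (qM ι n),
    fun k => inF (fun _ : Fin n => G) k (e k), ?_, ?_, ?_, ?_, ?_⟩
  · refine ⟨LinearMap.inl ℂ _ _, fun v => ?_⟩
    change ((AVQ (fun _ : Fin n => h)).per v, (0 : X.T)) =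
      ((AVQ (fun _ : Fin n => h)).per v, X.per 0)
    rw [map_zero]
  · refine ⟨LinearMap.inr ℂ _ _, fun v => ?_⟩
    change ((0 : (AVQ (fun _ : Fin n => h)).T), X.per v) =
      ((AVQ (fun _ : Fin n => h)).per 0, X.per v)
    rw [map_zero]
  · have e1 : (fun w : (AVQ (fun _ : Fin n => h)).H × X.H =>
        LinearMap.inl ℚ (AVQ (fun _ : Fin n => h)).H X.H w.1 +
          LinearMap.inr ℚ (AVQ (fun _ : Fin n => h)).H X.H w.2) = id := by
      funext w
      rw [LinearMap.inl_apply, LinearMap.inr_apply, Prod.mk_add_mk, add_zero, zero_add]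
      rfl
    change Function.Bijective (fun w : (AVQ (fun _ : Fin n => h)).H × X.H =>
        LinearMap.inl ℚ (AVQ (fun _ : Fin n => h)).H X.H w.1 +
          LinearMap.inr ℚ (AVQ (fun _ : Fin n => h)).H X.H w.2)
    rw [e1]
    exact Function.bijective_id
  · obtain ⟨Φ, hΦ⟩ := qM_hom h ι n hΨ
    exact hall (Fin n ⊕ Fin i) _ (isHodge_comp (qM ι n) Φ hΦ hT)
  · intro x
    refine (hf x).trans ?_
    refine congrArg T (a₂ := fun k => qM ι n (Sum.elim
      (fun k => ((inF (fun _ : Fin n => G) k (e k), 0) : (BQ (fun _ : Fin n => G) → ℚ) × X.H))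
      (fun l => ((0, x l) : (BQ (fun _ : Fin n => G) → ℚ) × X.H)) k)) ?_
    funext k
    rcases k with k | l
    · exact (qM_inl ι n k (e k)).symm
    · exact (qM_inr ι n (x l)).symm

/-- The alternations of the contractions are correspondences. -/
theorem AL_Corr (hmult : S_MULT) {n i : ℕ} {Ψ : X.T →ₗ[ℂ] (Fin G → ℂ)}
    (hΨ : ∀ v, Ψ (X.per v) = perOne Z (ι v))
    (hall : algSys.AllHodge (prodAV (AVQ (fun _ : Fin n => h)) X))
    {g : (Fin i → Fin G ⊕ Fin G) → ℚ} (hg : g ∈ RS (DZ Z) n i) : AL ι g ∈ Corr X n i := by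
  have key : RS (DZ Z) n i ≤ (Corr X n i).comap (ALL ι) := by
    refine Submodule.span_le.2 ?_
    rintro _ ⟨τ, η, hτ, rfl⟩
    change AL ι _ ∈ Corr X n i
    obtain ⟨T, hT, hTv⟩ := hmult h n i τ hτ
    -- the form for one value of `J`
    let F : (Fin n → Fin G ⊕ Fin G) → X.H [⋀^Fin i]→ₗ[ℚ] ℚ := fun J =>
      AL ι (fun I => τ (Sum.elim J I))
    have hF : ∀ J, F J ∈ Corr X n i := by
      intro J
      refine mem_Corr h ι hΨ hall hT (fun k => Pi.single (J k) 1) fun x => ?_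
      rw [hTv]
      change AL ι (fun I => τ (Sum.elim J I)) x = _
      rw [AL_apply]
      refine Finset.sum_congr rfl fun σ _ => ?_
      rw [evalF_elim]
      rfl
    have e1 : AL ι (fun I => ∑ J, η J * τ (Sum.elim J I)) = ∑ J, η J • F J := by
      rw [← ALL_apply]
      have e2 : (fun I => ∑ J, η J * τ (Sum.elim J I)) =
          ∑ J : Fin n → Fin G ⊕ Fin G, η J • fun I : Fin i → Fin G ⊕ Fin G => τ (Sum.elim J I) := by
        funext I
        rw [Finset.sum_apply]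
        rfl
      rw [e2, map_sum]
      refine Finset.sum_congr rfl fun J _ => ?_
      rw [map_smul]
      rfl
    rw [e1]
    exact Submodule.sum_mem _ fun J _ => Submodule.smul_mem _ _ (hF J)
  exact key hg

end prod

/-! ### the frame -/

section frame

variable {G : ℕ} {Z : Matrix (Fin G) (Fin G) ℂ} (h : PM Z) {X : AV}

include h in
theorem exists_frame (ι : X.H →ₗ[ℚ] (Fin G ⊕ Fin G → ℚ)) (π : (Fin G ⊕ Fin G → ℚ) →ₗ[ℚ] X.H)
    (hπι : ∀ v, π (ι v) = v) {Ψ : X.T →ₗ[ℂ] (Fin G → ℂ)} (hΨ : ∀ v, Ψ (X.per v) = perOne Z (ι v))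
    {Φ : (Fin G → ℂ) →ₗ[ℂ] X.T} (hΦ : ∀ w, Φ (perOne Z w) = X.per (π w)) :
    ∃ Fr : Frame X.per (JR Z) Unit, (∀ j, Fr.a j = ι) ∧ ∀ j, Fr.s j = π := by
  obtain ⟨P, I, hP1, hP2, hI1, hI2⟩ := h.cht.ex
  have hI3 : ∀ t, I (Complex.I • t) = JR Z *ᵥ I t := by
    intro t
    rw [← hI1 (JR Z *ᵥ I t), hP2, hI2]
  refine ⟨{
    a := fun _ => ι
    s := fun _ => π
    tot := fun w => by
      rw [Finset.univ_unique, Finset.sum_singleton, hπι]
    aR := fun _ => I.comp (Ψ.restrictScalars ℝ)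
    sR := fun _ => (Φ.restrictScalars ℝ).comp P
    aR_per := fun _ w => ?_
    sR_per := fun _ x => ?_
    aR_rot := fun _ z u => ?_
    sR_rot := fun _ x => ?_ }, fun _ => rfl, fun _ => rfl⟩
  · change I (Ψ (X.per w)) = _
    rw [hΨ, ← hP1, hI1]
  · change Φ (P _) = _
    rw [hP1, hΦ]
  · change I (Ψ (z • u)) = z.re • I (Ψ u) + z.im • (JR Z *ᵥ I (Ψ u))
    have e1 : Ψ (z • u) = z.re • Ψ u + z.im • (Complex.I • Ψ u) := by
      rw [map_smul]
      conv_lhs => rw [← Complex.re_add_im z]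
      rw [add_smul, mul_smul]
      rfl
    rw [e1, map_add, map_smul, map_smul, hI3]
  · change Φ (P (JR Z *ᵥ x)) = Complex.I • Φ (P x)
    rw [hP2, map_smul]

end frame

/-- **The assembly.** -/
theorem t_ASM : S_ASM := by
  intro hsub hprod hell halg hmult hratn hmaps d hd X hX n j V hV hL
  obtain ⟨G, Z, h, A, hC⟩ := exists_ppav (AV.isAV (prodAV X (EK d hd)))
  obtain ⟨Ψ₁, h₁⟩ := h.cht.hom hC (R := 1) (by rw [cK_one, Matrix.one_mul, Matrix.mul_one])
  obtain ⟨Ψ₂, h₂⟩ := hC.hom h.cht (R := 1) (by rw [cK_one, Matrix.one_mul, Matrix.mul_one])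
  have e₁ : ∀ w, Ψ₁ (perOne Z w) = (prodAV X (EK d hd)).per (A.symm w) := fun w => by
    rw [h₁, one_mulVec]
    rfl
  have e₂ : ∀ v, Ψ₂ ((prodAV X (EK d hd)).per v) = perOne Z (A v) := fun v => by
    have h3 := h₂ (A v)
    have h4 : ((prodAV X (EK d hd)).per.comp A.symm.toLinearMap.toAddMonoidHom) (A v) =
        (prodAV X (EK d hd)).per v := by
      change (prodAV X (EK d hd)).per (A.symm (A v)) = (prodAV X (EK d hd)).per v
      rw [LinearEquiv.symm_apply_apply]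
    rwa [h4, one_mulVec] at h3
  -- the maps
  let ι : X.H →ₗ[ℚ] (Fin G ⊕ Fin G → ℚ) :=
    A.toLinearMap.comp (LinearMap.inl ℚ X.H (EK d hd).H)
  let π : (Fin G ⊕ Fin G → ℚ) →ₗ[ℚ] X.H :=
    (LinearMap.fst ℚ X.H (EK d hd).H).comp A.symm.toLinearMap
  have hπι : ∀ v, π (ι v) = v := fun v =>
    congrArg Prod.fst (A.symm_apply_apply ((v, 0) : X.H × (EK d hd).H))
  let Ψ : X.T →ₗ[ℂ] (Fin G → ℂ) := Ψ₂.comp (LinearMap.inl ℂ X.T (EK d hd).T)
  have hΨ : ∀ v, Ψ (X.per v) = perOne Z (ι v) := fun v => by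
    have h3 := e₂ ((v, 0) : X.H × (EK d hd).H)
    have h4 : (prodAV X (EK d hd)).per ((v, 0) : X.H × (EK d hd).H) =
        ((X.per v, 0) : X.T × (EK d hd).T) := by
      change ((X.per v, (EK d hd).per 0) : X.T × (EK d hd).T) = _
      rw [map_zero]
    rw [h4] at h3
    exact h3
  let Φ : (Fin G → ℂ) →ₗ[ℂ] X.T := (LinearMap.fst ℂ X.T (EK d hd).T).comp Ψ₁
  have hΦ : ∀ w, Φ (perOne Z w) = X.per (π w) := fun w => congrArg Prod.fst (e₁ w)
  let fE : (EK d hd).H →ₗ[ℚ] (AVZ h).H := A.toLinearMap.comp (LinearMap.inr ℚ X.H (EK d hd).H)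
  have hfE : IsHom (EK d hd) (AVZ h) fE := by
    refine ⟨Ψ₂.comp (LinearMap.inr ℂ X.T (EK d hd).T), fun v => ?_⟩
    have h3 := e₂ ((0, v) : X.H × (EK d hd).H)
    have h4 : (prodAV X (EK d hd)).per ((0, v) : X.H × (EK d hd).H) =
        ((0, (EK d hd).per v) : X.T × (EK d hd).T) := by
      change ((X.per 0, (EK d hd).per v) : X.T × (EK d hd).T) = _
      rw [map_zero]
    rw [h4] at h3
    exact h3
  have hfE2 : Function.Injective fE := by
    intro v w hvw
    have h3 : ((0, v) : X.H × (EK d hd).H) = (0, w) := A.injective hvw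
    exact congrArg Prod.snd h3
  -- Good
  have hgW : Good d (prodAV X (EK d hd)) := hprod d _ _ hX (hell d hd)
  have hgZ : Good d (AVZ h) := hsub d (AVZ h) (prodAV X (EK d hd)) A.symm.toLinearMap
    ⟨Ψ₁, e₁⟩ A.symm.injective hgW
  have hgP : Good d (prodAV (AVQ (fun _ : Fin n => h)) X) :=
    hprod d _ _ (good_pow h hsub hprod hgZ n) hX
  have hall := halg d hd _ hgP
  -- the frame
  obtain ⟨Fr, hFa, hFs⟩ := exists_frame h ι π hπι hΨ hΦ
  have hmap := hmaps h d hd fE hfE hfE2 hgZ n j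
  obtain ⟨S, Si, H⟩ := hermZ h.isPer (Set.mem_singleton Z)
  rw [← img_eq] at H
  have hne : Nonempty (Fin G ⊕ Fin G) := by
    by_contra hcon
    rw [not_nonempty_iff] at hcon
    have h1 : ∀ v w : (EK d hd).H, v = w := fun v w => hfE2 (by
      funext i
      exact hcon.elim i)
    have h2 : (fun _ => 1 : (Fin 1 ⊕ Fin 1 → ℚ)) = fun _ => 0 := h1 _ _
    have h3 := congrFun h2 (Sum.inl 0)
    exact one_ne_zero h3
  let σ₀ : Fin (n + 2 * j) → Unit := fun _ => ()
  have hHL : HL (DZ Z) (n : ℤ) (V.map (Fr.cf σ₀)) := Fr.HL_map (D := DZ Z) rfl σ₀ hV hL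
  have hRS := hratn H n (n + 2 * j) hmap _ hHL
  intro f hf
  have h5 := hRS (Submodule.mem_map_of_mem hf)
  have h6 := AL_Corr h ι hmult hΨ hall h5
  have h7 : ∀ x : Fin (n + 2 * j) → X.H, f x = evalF (Fr.cf σ₀ f) (fun k => ι (x k)) := by
    intro x
    rw [Fr.expand f x, Fintype.sum_eq_single σ₀ (fun σ hσ => absurd (Subsingleton.elim _ _) hσ)]
    simp only [hFa]
    rfl
  rw [AL_self ι _ f h7] at h6
  have h8 : ((Nat.factorial (n + 2 * j) : ℕ) : ℚ) ≠ 0 := Nat.cast_ne_zero.2 (Nat.factorial_ne_zero _)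
  have h9 := Submodule.smul_mem _ (((Nat.factorial (n + 2 * j) : ℕ) : ℚ)⁻¹) h6
  rwa [smul_smul, inv_mul_cancel₀ h8, one_smul] at h9

end

end Pool.Agent.N222.GHC
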